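import Pool.Agent.N943.RC.Stm

/-!
# Concentration of the number of the bad vertices (step P3 of project RC)
-/

set_option autoImplicit false

namespace N692.RC

open Finset Pool.Agent.R980 N943.RC
open scoped Classical

/-- marginals of the product Bernoulli space -/
theorem bex_marg {E E' : Type} [Fintype E] [DecidableEq E] [Fintype E'] [DecidableEq E'] (p : ℝ)
    (j : E' → E) (hj : Function.Injective j) (F : (E' → Bool) → ℝ) :
    bex p (fun x : E → Bool => F (fun e => x (j e))) = bex p F := by
  let P : E → Prop := fun e => ∃ e', j e' = e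
  refine (bex_split p P _).trans ?_
  have h1 : ∀ (a : {e // P e} → Bool) (b : {e // ¬ P e} → Bool),
      F (fun e => (Equiv.piEquivPiSubtypeProd P (fun _ => Bool)).symm (a, b) (j e)) =
        F (fun e => a ⟨j e, e, rfl⟩) := by
    intro a b
    congr 1
    funext e
    have he : P (j e) := ⟨e, rfl⟩
    simp [Equiv.piEquivPiSubtypeProd, he]
  have h2 : ∀ a : {e // P e} → Bool, ∑ b : {e // ¬ P e} → Bool, bw p a * bw p b *
      F (fun e => (Equiv.piEquivPiSubtypeProd P (fun _ => Bool)).symm (a, b) (j e)) =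
        bw p a * F (fun e => a ⟨j e, e, rfl⟩) := by
    intro a
    rw [Finset.sum_congr rfl fun b _ => by rw [h1 a b], ← Finset.sum_mul, ← Finset.mul_sum, bw_sum,
      mul_one]
  refine Eq.trans (Finset.sum_congr rfl fun a _ => h2 a) ?_
  unfold bex
  let Q : E' ≃ {e // P e} := Equiv.ofInjective j hj
  refine Fintype.sum_equiv (Equiv.arrowCongr Q.symm (Equiv.refl Bool)) _ _ fun a => ?_
  have h3 : (Equiv.arrowCongr Q.symm (Equiv.refl Bool)) a = fun e => a (Q e) := by
    funext e
    simp [Equiv.arrowCongr]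
  rw [h3]
  have h4 : bw p (fun e => a (Q e)) = bw p a := by
    unfold bw
    exact Equiv.prod_comp Q (fun e => if a e = true then p else 1 - p)
  rw [h4]
  rfl

theorem bex_sum {E ι : Type} [Fintype E] [DecidableEq E] (p : ℝ) (s : Finset ι)
    (f : ι → (E → Bool) → ℝ) :
    bex p (fun x => ∑ i ∈ s, f i x) = ∑ i ∈ s, bex p (f i) := by
  unfold bex
  rw [Finset.sum_comm]
  exact Finset.sum_congr rfl fun x _ => by rw [Finset.mul_sum]

theorem bex_bit {E : Type} [Fintype E] [DecidableEq E] (p : ℝ) (e₀ : E) :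
    bex p (fun x : E → Bool => if x e₀ = true then (1 : ℝ) else 0) = p := by
  have h := bex_marg (E := E) (E' := Unit) p (fun _ => e₀) (fun _ _ _ => rfl)
    (fun z => if z () = true then (1 : ℝ) else 0)
  rw [h]
  have h2 := bex_prod (E := Unit) p (fun _ b => if b = true then (1 : ℝ) else 0)
  simpa using h2

section

variable {n d R : ℕ}

/-- the indicator of a bad vertex -/
noncomputable def fi (v : Fin n → Pt d) (a : Fin n) (x : LE n R → Bool) : ℝ :=
  if a ∈ BadSet v x then 1 else 0

theorem fi_nonneg (v : Fin n → Pt d) (a : Fin n) (x : LE n R → Bool) : 0 ≤ fi v a x := by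
  unfold fi; split_ifs <;> norm_num

theorem fi_le_one (v : Fin n → Pt d) (a : Fin n) (x : LE n R → Bool) : fi v a x ≤ 1 := by
  unfold fi; split_ifs <;> norm_num

theorem lab_congr {x y : LE n R → Bool} {a : Fin n} (h : ∀ e : LE n R, a ∈ e.1.1 → x e = y e)
    (i : Fin R) (u : Fin n) : Lab x i a u ↔ Lab y i a u := by
  unfold Lab
  exact exists_congr fun hd => by rw [h (⟨s(a, u), hd⟩, i) (Sym2.mem_mk_left a u)]

theorem out_congr (v : Fin n → Pt d) {x y : LE n R → Bool} {a : Fin n}
    (h : ∀ e : LE n R, a ∈ e.1.1 → x e = y e) (i : Fin R) : OutAt v x a i ↔ OutAt v y a i := by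
  unfold OutAt
  have : {u | Lab x i a u} = {u | Lab y i a u} := by
    ext u
    exact lab_congr h i u
  rw [this]

theorem fi_congr (v : Fin n → Pt d) {x y : LE n R → Bool} {a : Fin n}
    (h : ∀ e : LE n R, a ∈ e.1.1 → x e = y e) : fi v a x = fi v a y := by
  unfold fi BadSet
  have : (univ.filter fun i : Fin R => OutAt v x a i) = univ.filter fun i => OutAt v y a i :=
    Finset.filter_congr fun i _ => out_congr v h i
  simp only [mem_filter, mem_univ, true_and, this]

/-- one term of `Phi` -/
noncomputable def ph (v : Fin n → Pt d) (q : ℝ) (a : Fin n) : ℝ :=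
  bex q (fun z : Fin n → Bool =>
    if v a ∉ affineSpan ℝ (v '' {u | u ≠ a ∧ z u = true}) then 1 else 0)

theorem bex_out (v : Fin n → Pt d) (q : ℝ) (a : Fin n) (i : Fin R) :
    bex q (fun x : LE n R → Bool => if OutAt v x a i then (1 : ℝ) else 0) = ph v q a := by
  set F : ({u : Fin n // u ≠ a} → Bool) → ℝ := fun z =>
    if v a ∉ affineSpan ℝ (v '' {u | ∃ h : u ≠ a, z ⟨u, h⟩ = true}) then 1 else 0 with hF
  have hd : ∀ u : {u : Fin n // u ≠ a}, ¬ (s(a, u.1) : Sym2 (Fin n)).IsDiag := by
    intro u h
    rw [Sym2.mk_isDiag_iff] at h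
    exact u.2 h.symm
  have h1 := bex_marg (E := LE n R) (E' := {u : Fin n // u ≠ a}) q
    (fun u => (⟨s(a, u.1), hd u⟩, i)) (by
      intro u w h
      have h2 := congrArg (fun e : LE n R => e.1.1) h
      simp only at h2
      rw [Sym2.eq_iff] at h2
      rcases h2 with ⟨_, h3⟩ | ⟨h3, _⟩
      · exact Subtype.ext h3
      · exact absurd h3.symm w.2) F
  have h2 := bex_marg (E := Fin n) (E' := {u : Fin n // u ≠ a}) q
    (fun u => u.1) Subtype.val_injective F
  unfold ph
  have e1 : (fun x : LE n R → Bool => if OutAt v x a i then (1 : ℝ) else 0) =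
      fun x => F (fun u => x (⟨s(a, u.1), hd u⟩, i)) := by
    funext x
    have : {u | Lab x i a u} = {u | ∃ h : u ≠ a, x (⟨s(a, u), hd ⟨u, h⟩⟩, i) = true} := by
      ext u
      show Lab x i a u ↔ ∃ h : u ≠ a, x (⟨s(a, u), hd ⟨u, h⟩⟩, i) = true
      unfold Lab
      constructor
      · rintro ⟨h, hx⟩
        have hne : u ≠ a := by
          intro h3
          exact h (by rw [Sym2.mk_isDiag_iff]; exact h3.symm)
        exact ⟨hne, hx⟩
      · rintro ⟨h, hx⟩
        exact ⟨hd ⟨u, h⟩, hx⟩
    have hiff : OutAt v x a i ↔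
        v a ∉ affineSpan ℝ (v '' {u | ∃ h : u ≠ a, x (⟨s(a, u), hd ⟨u, h⟩⟩, i) = true}) := by
      unfold OutAt
      rw [this]
    by_cases h : OutAt v x a i
    · rw [if_pos h]
      exact (if_pos (hiff.1 h)).symm
    · rw [if_neg h]
      exact (if_neg fun h2 => h (hiff.2 h2)).symm
  have e2 : (fun z : Fin n → Bool =>
      if v a ∉ affineSpan ℝ (v '' {u | u ≠ a ∧ z u = true}) then (1 : ℝ) else 0) =
      fun x => F (fun u => x u.1) := by
    funext x
    simp only [hF, exists_prop]
  rw [e1, h1, e2, h2]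

theorem bex_fi (v : Fin n → Pt d) {q : ℝ} (h0 : 0 ≤ q) (h1 : q ≤ 1) (hR : 0 < R) (a : Fin n) :
    bex q (fi (R := R) v a) ≤ 2 * ph v q a := by
  have hR' : (0 : ℝ) < R := by exact_mod_cast hR
  calc bex q (fi (R := R) v a)
      ≤ bex q (fun x : LE n R → Bool => (2 / (R : ℝ)) *
          ∑ i : Fin R, (if OutAt v x a i then (1 : ℝ) else 0)) := by
        refine bex_mono h0 h1 fun x => ?_
        unfold fi
        split_ifs with h
        · simp only [BadSet, mem_filter, mem_univ, true_and] at h
          rw [← Finset.sum_filter, Finset.sum_const, nsmul_eq_mul, mul_one, div_mul_eq_mul_div,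
            le_div_iff₀ hR', one_mul]
          exact_mod_cast h.le
        · refine mul_nonneg (by positivity) (Finset.sum_nonneg fun i _ => ?_)
          split_ifs <;> norm_num
    _ = 2 / (R : ℝ) * ∑ i : Fin R, ph v q a := by
        rw [bex_mul, bex_sum]
        congr 1
        exact Finset.sum_congr rfl fun i _ => bex_out v q a i
    _ = 2 * ph v q a := by
        rw [Finset.sum_const, Finset.card_univ, Fintype.card_fin, nsmul_eq_mul]
        field_simp

/-- remove the shared bits -/
noncomputable def cut (a b : Fin n) (x : LE n R → Bool) : LE n R → Bool :=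
  fun e => if e.1.1 = s(a, b) then false else x e

/-- the indicator of a shared bit -/
noncomputable def TT (a b : Fin n) (x : LE n R → Bool) : ℝ :=
  if ∃ e : LE n R, e.1.1 = s(a, b) ∧ x e = true then 1 else 0

theorem TT_nonneg (a b : Fin n) (x : LE n R → Bool) : 0 ≤ TT a b x := by
  unfold TT; split_ifs <;> norm_num

theorem TT_le_one (a b : Fin n) (x : LE n R → Bool) : TT a b x ≤ 1 := by
  unfold TT; split_ifs <;> norm_num

theorem cut_eq (a b : Fin n) (x : LE n R → Bool) (h : ¬ ∃ e : LE n R, e.1.1 = s(a, b) ∧ x e = true) :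
    cut a b x = x := by
  funext e
  unfold cut
  split_ifs with h1
  · by_contra h2
    exact h ⟨e, h1, by cases hx : x e <;> simp_all⟩
  · rfl

theorem bex_TT (a b : Fin n) (hab : a ≠ b) {q : ℝ} (h0 : 0 ≤ q) (h1 : q ≤ 1) :
    bex q (TT (R := R) a b) ≤ R * q := by
  have hd : ¬ (s(a, b) : Sym2 (Fin n)).IsDiag := by
    rw [Sym2.mk_isDiag_iff]; exact hab
  calc bex q (TT (R := R) a b)
      ≤ bex q (fun x : LE n R → Bool => ∑ i : Fin R,
          (if x (⟨s(a, b), hd⟩, i) = true then (1 : ℝ) else 0)) := by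
        refine bex_mono h0 h1 fun x => ?_
        unfold TT
        split_ifs with h
        · obtain ⟨⟨e, i⟩, he, hx⟩ := h
          have he' : e = ⟨s(a, b), hd⟩ := Subtype.ext he
          subst he'
          refine le_trans ?_ (Finset.single_le_sum (f := fun i : Fin R =>
            (if x (⟨s(a, b), hd⟩, i) = true then (1 : ℝ) else 0)) (fun j _ => ?_) (mem_univ i))
          · simp only [hx, if_true]; norm_num
          · split_ifs <;> norm_num
        · refine Finset.sum_nonneg fun i _ => ?_
          split_ifs <;> norm_num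
    _ = R * q := by
        rw [bex_sum, Finset.sum_congr rfl fun i _ => bex_bit q _, Finset.sum_const,
          Finset.card_univ, Fintype.card_fin, nsmul_eq_mul]

theorem cov (v : Fin n → Pt d) (a b : Fin n) (hab : a ≠ b) {q : ℝ} (h0 : 0 ≤ q) (h1 : q ≤ 1) :
    bex q (fun x : LE n R → Bool => fi v a x * fi v b x) ≤
      bex q (fi (R := R) v a) * bex q (fi (R := R) v b) + 4 * (R * q) := by
  set π := bex q (TT (R := R) a b) with hπ
  have hπ1 : π ≤ R * q := bex_TT a b hab h0 h1
  have hπ0 : 0 ≤ π := by
    have := bex_mono (E := LE n R) h0 h1 (f := fun _ => 0) (g := TT a b) fun x => TT_nonneg a b x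
    rwa [bex_const] at this
  have hπ2 : π ≤ 1 := by
    have := bex_mono (E := LE n R) h0 h1 (f := TT a b) (g := fun _ => 1) fun x => TT_le_one a b x
    rwa [bex_const] at this
  have s1 : bex q (fun x : LE n R → Bool => fi v a x * fi v b x) ≤
      bex q (fun x : LE n R → Bool => fi v a (cut a b x) * fi v b (cut a b x) + TT a b x) := by
    refine bex_mono h0 h1 fun x => ?_
    by_cases h : ∃ e : LE n R, e.1.1 = s(a, b) ∧ x e = true
    · have hT : TT a b x = 1 := by unfold TT; rw [if_pos h]
      rw [hT]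
      have k1 := mul_le_one₀ (fi_le_one v a x) (fi_nonneg v b x) (fi_le_one v b x)
      have k2 := mul_nonneg (fi_nonneg v a (cut a b x)) (fi_nonneg v b (cut a b x))
      linarith
    · rw [cut_eq a b x h]
      linarith [TT_nonneg a b x]
  have s2 : ∀ c : Fin n, bex q (fun x : LE n R → Bool => fi v c (cut a b x)) ≤
      bex q (fi (R := R) v c) + π := by
    intro c
    rw [hπ, ← bex_add]
    refine bex_mono h0 h1 fun x => ?_
    by_cases h : ∃ e : LE n R, e.1.1 = s(a, b) ∧ x e = true
    · have hT : TT a b x = 1 := by unfold TT; rw [if_pos h]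
      rw [hT]
      have k1 := fi_le_one v c (cut a b x)
      have k2 := fi_nonneg v c x
      linarith
    · rw [cut_eq a b x h]
      linarith [TT_nonneg a b x]
  have s3 : bex q (fun x : LE n R → Bool => fi v a (cut a b x) * fi v b (cut a b x)) =
      bex q (fun x : LE n R → Bool => fi v a (cut a b x)) *
        bex q (fun x : LE n R → Bool => fi v b (cut a b x)) := by
    refine bex_block q (fun e : LE n R => a ∈ e.1.1 ∧ e.1.1 ≠ s(a, b)) _ _ ?_ ?_
    · intro x y hxy
      refine fi_congr v fun e he => ?_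
      unfold cut
      split_ifs with h
      · rfl
      · exact hxy e ⟨he, h⟩
    · intro x y hxy
      refine fi_congr v fun e he => ?_
      unfold cut
      split_ifs with h
      · rfl
      · refine hxy e ?_
        rintro ⟨h2, -⟩
        exact h ((Sym2.mem_and_mem_iff hab).1 ⟨h2, he⟩)
  have nn : ∀ g : (LE n R → Bool) → ℝ, (∀ x, 0 ≤ g x) → 0 ≤ bex q g := by
    intro g hg
    have := bex_mono (E := LE n R) h0 h1 (f := fun _ => 0) (g := g) hg
    rwa [bex_const] at this
  have le1 : ∀ c : Fin n, bex q (fi (R := R) v c) ≤ 1 := by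
    intro c
    have := bex_mono (E := LE n R) h0 h1 (f := fi v c) (g := fun _ => 1) (fi_le_one v c)
    rwa [bex_const] at this
  have t1 := nn _ (fun x => fi_nonneg v a (cut a b x))
  have t2 := nn _ (fun x => fi_nonneg v b (cut a b x))
  have t3 := nn _ (fi_nonneg (R := R) v a)
  have t4 := nn _ (fi_nonneg (R := R) v b)
  rw [bex_add, s3] at s1
  have s4 := mul_le_mul (s2 a) (s2 b) t2 (by linarith)
  have l1 := le1 a
  have l2 := le1 b
  have : (bex q (fi (R := R) v a) + π) * (bex q (fi (R := R) v b) + π) + π ≤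
      bex q (fi (R := R) v a) * bex q (fi (R := R) v b) + 4 * π := by
    nlinarith
  linarith

theorem badConc : BadConc := by
  intro n d R v q δ hn hR h0 h1 hδ
  have hn' : (0 : ℝ) < n := by exact_mod_cast hn
  set μ := bex q (fun x : LE n R → Bool => ∑ a : Fin n, fi v a x) with hμ
  have hμs : μ = ∑ a : Fin n, bex q (fi (R := R) v a) := bex_sum q univ _
  have hμ2 : μ ≤ 2 * Phi v q := by
    rw [hμs, Phi, Finset.mul_sum]
    exact Finset.sum_le_sum fun a _ => bex_fi v h0 h1 hR a
  have hcard : ∀ x : LE n R → Bool, ((BadSet v x).card : ℝ) = ∑ a : Fin n, fi v a x := by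
    intro x
    unfold fi
    rw [Finset.sum_ite_mem, Finset.univ_inter, Finset.sum_const, nsmul_eq_mul, mul_one]
  have hsq : bex q (fun x : LE n R → Bool => (∑ a : Fin n, fi v a x) ^ 2) ≤
      μ ^ 2 + n + 4 * (R * q) * n ^ 2 := by
    have e1 : (fun x : LE n R → Bool => (∑ a : Fin n, fi v a x) ^ 2) =
        fun x => ∑ a : Fin n, ∑ b : Fin n, fi v a x * fi v b x := by
      funext x
      rw [sq, Finset.sum_mul_sum]
    rw [e1, bex_sum]
    simp only [bex_sum]
    have e2 : μ ^ 2 = ∑ a : Fin n, ∑ b : Fin n,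
        bex q (fi (R := R) v a) * bex q (fi (R := R) v b) := by
      rw [hμs, sq, Finset.sum_mul_sum]
    have e3 : (n : ℝ) = ∑ a : Fin n, ∑ b : Fin n, if a = b then (1 : ℝ) else 0 := by
      simp
    have e4 : 4 * (R * q) * (n : ℝ) ^ 2 = ∑ a : Fin n, ∑ b : Fin n, 4 * (R * q) := by
      simp only [Finset.sum_const, Finset.card_univ, Fintype.card_fin, nsmul_eq_mul]
      ring
    calc ∑ a : Fin n, ∑ b : Fin n, bex q (fun x : LE n R → Bool => fi v a x * fi v b x)
        ≤ ∑ a : Fin n, ∑ b : Fin n, (bex q (fi (R := R) v a) * bex q (fi (R := R) v b) +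
          (if a = b then (1 : ℝ) else 0) + 4 * (R * q)) := by
          refine Finset.sum_le_sum fun a _ => Finset.sum_le_sum fun b _ => ?_
          have hp : 0 ≤ (R : ℝ) * q := by positivity
          split_ifs with h
          · subst h
            have k1 : bex q (fun x : LE n R → Bool => fi v a x * fi v a x) ≤ 1 := by
              have := bex_mono (E := LE n R) h0 h1 (f := fun x => fi v a x * fi v a x)
                (g := fun _ => 1) fun x =>
                  mul_le_one₀ (fi_le_one v a x) (fi_nonneg v a x) (fi_le_one v a x)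
              rwa [bex_const] at this
            have k2 : 0 ≤ bex q (fi (R := R) v a) * bex q (fi (R := R) v a) := mul_self_nonneg _
            linarith
          · have := cov (R := R) v a b h h0 h1
            linarith
      _ = μ ^ 2 + n + 4 * (R * q) * n ^ 2 := by
          rw [e4, e2]
          conv_rhs => rw [e3]
          simp only [Finset.sum_add_distrib]
  have hvar : bex q (fun x : LE n R → Bool => (∑ a : Fin n, fi v a x - μ) ^ 2) ≤
      n + 4 * (R * q) * n ^ 2 := by
    have e1 : (fun x : LE n R → Bool => (∑ a : Fin n, fi v a x - μ) ^ 2) =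
        fun x => (∑ a : Fin n, fi v a x) ^ 2 + ((-2 * μ) * (∑ a : Fin n, fi v a x) + μ ^ 2) := by
      funext x
      ring
    rw [e1, bex_add, bex_add, bex_mul, bex_const, ← hμ]
    nlinarith
  have hD : (0 : ℝ) < (δ * n) ^ 2 := by positivity
  calc bex q (fun x : LE n R → Bool =>
      if 2 * Phi v q + δ * n ≤ ((BadSet v x).card : ℝ) then 1 else 0)
      ≤ bex q (fun x : LE n R → Bool => (1 / (δ * n) ^ 2) * (∑ a : Fin n, fi v a x - μ) ^ 2) := by
        refine bex_mono h0 h1 fun x => ?_
        split_ifs with h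
        · rw [hcard] at h
          have k1 : δ * n ≤ ∑ a : Fin n, fi v a x - μ := by linarith
          have k2 : (δ * n) ^ 2 ≤ (∑ a : Fin n, fi v a x - μ) ^ 2 :=
            pow_le_pow_left₀ (by positivity) k1 2
          rw [one_div_mul_eq_div, le_div_iff₀ hD, one_mul]
          exact k2
        · positivity
    _ ≤ (1 / (δ * n) ^ 2) * (n + 4 * (R * q) * n ^ 2) := by
        rw [bex_mul]
        exact mul_le_mul_of_nonneg_left hvar (by positivity)
    _ = (1 + 4 * R * q * n) / (δ ^ 2 * n) := by
        field_simp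

end

end N692.RC
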